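import Mathlib

/-!
# Partitioning convex sets that contain a common cube into finitely many types
-/

set_option autoImplicit false

open Set MeasureTheory
open scoped Pointwise

namespace X73.VH

/-- the cube of half-side `r` -/
def Q (d : ℕ) (r : ℝ) : Set (Fin d → ℝ) := {x | ∀ k, |x k| ≤ r}

variable {d : ℕ}

theorem zero_mem_Q {r : ℝ} (hr : 0 ≤ r) : (0 : Fin d → ℝ) ∈ Q d r := by
  intro k; simpa using hr

theorem large (K : Set (Fin d → ℝ)) (hK : Convex ℝ K) (hQ : Q d 1 ⊆ K) (m : ℕ) (hm : 1 ≤ m)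
    (p : Fin d → ℝ) (hp : p ∈ K) (hpQ : p ∉ Q d (2 * m)) :
    (m : ENNReal) ≤ volume (K ∩ Q d (2 * m)) := by
  classical
  have hm1 : (1 : ℝ) ≤ m := by exact_mod_cast hm
  have hex : ∃ k0, 2 * (m : ℝ) < |p k0| := by
    by_contra h
    push Not at h
    exact hpQ h
  obtain ⟨k0, hk0⟩ := hex
  have : Nonempty (Fin d) := ⟨k0⟩
  obtain ⟨j, hj⟩ := Finite.exists_max (fun k => |p k|)
  have hpj : 2 * (m : ℝ) < |p j| := lt_of_lt_of_le hk0 (hj k0)
  have hpj0 : 0 < |p j| := by linarith
  set s : ℝ := 1 / |p j| with hs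
  have hs0 : 0 < s := by positivity
  have hs1 : ∀ k, |s * p k| ≤ 1 := by
    intro k
    rw [abs_mul, abs_of_pos hs0, hs, one_div, inv_mul_le_iff₀ hpj0, mul_one]
    exact hj k
  have hsj : |s * p j| = 1 := by
    rw [abs_mul, abs_of_pos hs0, hs]
    field_simp
  have hsm : s * (2 * m) ≤ 1 := by
    rw [hs, one_div, inv_mul_le_iff₀ hpj0, mul_one]; linarith
  -- the centres
  set c : ℕ → Fin d → ℝ := fun i k => i * (s * p k) with hc
  set cube : ℕ → Set (Fin d → ℝ) := fun i =>
    Set.pi univ fun k => Ico (c i k - 1 / 2) (c i k + 1 / 2) with hcube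
  have hvol : ∀ i, volume (cube i) = 1 := by
    intro i
    rw [hcube]
    simp only
    rw [Real.volume_pi_Ico]
    apply Finset.prod_eq_one
    intro k _
    have : c i k + 1 / 2 - (c i k - 1 / 2) = 1 := by ring
    rw [this, ENNReal.ofReal_one]
  have hmeas : ∀ i, MeasurableSet (cube i) := fun i =>
    MeasurableSet.univ_pi fun k => measurableSet_Ico
  have hdisj : ∀ i i' : ℕ, i < i' → Disjoint (cube i) (cube i') := by
    intro i i' hii
    rw [Set.disjoint_left]
    intro x hx hx'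
    have h1 := hx j (mem_univ _)
    have h2 := hx' j (mem_univ _)
    have h3 : (i : ℝ) + 1 ≤ i' := by exact_mod_cast hii
    simp only [hc, mem_Ico] at h1 h2
    rcases abs_eq (zero_le_one) |>.1 hsj with h | h
    · rw [h] at h1 h2; linarith
    · rw [h] at h1 h2; linarith
  have hsub : ∀ i, i < m → cube i ⊆ K ∩ Q d (2 * m) := by
    intro i hi x hx
    have hi' : (i : ℝ) + 1 ≤ m := by exact_mod_cast hi
    have hi0 : (0 : ℝ) ≤ i := Nat.cast_nonneg _
    have hxk : ∀ k, |x k - c i k| ≤ 1 / 2 := by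
      intro k
      have := hx k (mem_univ _)
      rw [mem_Ico] at this
      rw [abs_le]; constructor <;> linarith
    have hck : ∀ k, |c i k| ≤ i := by
      intro k
      simp only [hc]
      rw [abs_mul, abs_of_nonneg hi0]
      calc (i : ℝ) * |s * p k| ≤ i * 1 := mul_le_mul_of_nonneg_left (hs1 k) hi0
        _ = i := mul_one _
    refine ⟨?_, ?_⟩
    · set t : ℝ := i * s with ht
      have ht0 : 0 ≤ t := by positivity
      have ht1 : t ≤ 1 / 2 := by
        have : (i : ℝ) * s ≤ m * s := by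
          apply mul_le_mul_of_nonneg_right _ hs0.le
          linarith
        nlinarith
      have hu : (fun k => (x k - c i k) / (1 - t)) ∈ K := by
        apply hQ
        intro k
        rw [abs_div, abs_of_pos (show 0 < 1 - t by linarith), div_le_one (by linarith)]
        linarith [hxk k]
      have := hK hp hu ht0 (show 0 ≤ 1 - t by linarith) (by ring)
      convert this using 1
      funext k
      simp only [Pi.add_apply, Pi.smul_apply, smul_eq_mul, hc, ht]
      have : (1 - (i : ℝ) * s) ≠ 0 := by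
        rw [← ht]; linarith
      field_simp
      ring
    · intro k
      have h1 := hxk k
      have h2 := hck k
      have h3 : |x k| ≤ |x k - c i k| + |c i k| := by
        have := abs_add_le (x k - c i k) (c i k)
        simpa using this
      linarith
  have hU : (⋃ i ∈ Finset.range m, cube i) ⊆ K ∩ Q d (2 * m) := by
    intro x hx
    simp only [mem_iUnion, Finset.mem_range] at hx
    obtain ⟨i, hi, hx⟩ := hx
    exact hsub i hi hx
  refine le_trans (le_of_eq ?_) (measure_mono hU)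
  rw [measure_biUnion_finset]
  · simp [hvol]
  · intro i _ i' _ hne
    rcases lt_or_gt_of_ne hne with h | h
    · exact hdisj i i' h
    · exact (hdisj i' i h).symm
  · intro i _; exact hmeas i

/-- a grid cell -/
def cell (ε : ℝ) (z : Fin d → ℤ) : Set (Fin d → ℝ) :=
  {x | ∀ k, ε * z k ≤ x k ∧ x k ≤ ε * (z k + 1)}

theorem cell_spec (K : Set (Fin d → ℝ)) (hK : Convex ℝ K) (hQ : Q d 1 ⊆ K) (ε : ℝ) (hε : 0 < ε)
    (hε1 : ε ≤ 1) (R : ℝ) (M : ℤ) (hM : R ≤ ε * M) (x : Fin d → ℝ) (hx : x ∈ K)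
    (hxR : x ∈ Q d R) :
    ∃ z : Fin d → ℤ, (∀ k, -M ≤ z k ∧ z k ≤ M) ∧ (1 - ε) • x ∈ cell ε z ∧ cell ε z ⊆ K := by
  refine ⟨fun k => ⌊(1 - ε) * x k / ε⌋, fun k => ?_, fun k => ?_, fun w hw => ?_⟩
  · have h1 := hxR k
    have h2 : |(1 - ε) * x k / ε| ≤ M := by
      rw [abs_div, abs_mul, abs_of_pos hε, abs_of_nonneg (show 0 ≤ 1 - ε by linarith),
        div_le_iff₀ hε]
      have : (1 - ε) * |x k| ≤ |x k| := by nlinarith [abs_nonneg (x k)]
      linarith
    rw [abs_le] at h2
    constructor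
    · rw [Int.le_floor]; push_cast; exact h2.1
    · have := Int.floor_mono h2.2
      simpa using this
  · have h1 := Int.floor_le ((1 - ε) * x k / ε)
    have h2 := (Int.lt_floor_add_one ((1 - ε) * x k / ε)).le
    simp only [Pi.smul_apply, smul_eq_mul]
    constructor
    · rw [le_div_iff₀ hε] at h1; linarith
    · rw [div_le_iff₀ hε] at h2; linarith
  · have hu : (fun k => (w k - (1 - ε) * x k) / ε) ∈ K := by
      apply hQ
      intro k
      have h1 := Int.floor_le ((1 - ε) * x k / ε)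
      have h2 := (Int.lt_floor_add_one ((1 - ε) * x k / ε)).le
      have h3 := hw k
      rw [le_div_iff₀ hε] at h1
      rw [div_le_iff₀ hε] at h2
      simp only at h3
      rw [abs_div, abs_of_pos hε, div_le_one hε, abs_le]
      constructor <;> nlinarith [h3.1, h3.2]
    have := hK hx hu (show 0 ≤ 1 - ε by linarith) hε.le (by ring)
    convert this using 1
    funext k
    simp only [Pi.add_apply, Pi.smul_apply, smul_eq_mul]
    field_simp
    ring

theorem univ_vol (hd : 1 ≤ d) : volume (univ : Set (Fin d → ℝ)) = ⊤ := by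
  have : Nonempty (Fin d) := ⟨⟨0, hd⟩⟩
  exact measure_univ_of_isAddLeftInvariant _

theorem partition (hd : 1 ≤ d) (V0 δ : ℝ) (hδ : 0 < δ) (hδ1 : δ < 1) :
    ∃ r : ℕ, ∀ (ι : Type) (K : ι → Set (Fin d → ℝ)), (∀ i, Convex ℝ (K i)) →
      (∀ i, Q d 1 ⊆ K i) → ∀ V : ℝ, 0 < V → V ≤ V0 → (∀ i, ENNReal.ofReal V ≤ volume (K i)) →
      ∃ P : ι → Fin r, ∀ j, ENNReal.ofReal ((1 - δ) * V) ≤
        volume (⋂ i ∈ {i | P i = j}, K i) := by
  classical
  have hdR : (1 : ℝ) ≤ d := by exact_mod_cast hd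
  -- the radius
  obtain ⟨m, hm⟩ := exists_nat_ge (max V0 1)
  have hmV : V0 ≤ m := (le_max_left _ _).trans hm
  have hm1 : 1 ≤ m := by
    have : (1 : ℝ) ≤ m := (le_max_right _ _).trans hm
    exact_mod_cast this
  set ε : ℝ := δ / d with hε
  have hε0 : 0 < ε := by positivity
  have hε1 : ε < 1 := by
    rw [hε, div_lt_one (by linarith)]; linarith
  have hpow : 1 - δ ≤ (1 - ε) ^ d := by
    have h1 := one_add_mul_le_pow (show (-2 : ℝ) ≤ -ε by linarith) d
    have h2 : (d : ℝ) * -ε = -δ := by rw [hε]; field_simp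
    rw [h2] at h1
    have h3 : (1 : ℝ) + -ε = 1 - ε := by ring
    rw [h3] at h1
    linarith
  obtain ⟨M, hM⟩ := exists_nat_ge (2 * (m : ℝ) / ε)
  have hM' : 2 * (m : ℝ) ≤ ε * ((M : ℤ) : ℝ) := by
    rw [div_le_iff₀ hε0] at hM
    push_cast; linarith
  set G : Finset (Fin d → ℤ) := Fintype.piFinset fun _ => Finset.Icc (-(M : ℤ)) M with hG
  refine ⟨Fintype.card {T // T ∈ G.powerset}, ?_⟩
  intro ι K hK hQ V hV0 hV hvol
  set ty : ι → {T // T ∈ G.powerset} := fun i =>
    ⟨G.filter fun z => cell ε z ⊆ K i, Finset.mem_powerset.2 (Finset.filter_subset _ _)⟩ with hty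
  refine ⟨fun i => Fintype.equivFin _ (ty i), fun j => ?_⟩
  by_cases hne : ∃ i, Fintype.equivFin _ (ty i) = j
  · obtain ⟨i0, hi0⟩ := hne
    have hsub : (1 - ε) • (K i0 ∩ Q d (2 * m)) ⊆
        ⋂ i ∈ {i | Fintype.equivFin _ (ty i) = j}, K i := by
      rintro y ⟨x, hx, rfl⟩
      simp only [mem_iInter, mem_setOf_eq]
      intro i hi
      have hteq : ty i = ty i0 := (Fintype.equivFin _).injective (hi.trans hi0.symm)
      obtain ⟨z, hz1, hz2, hz3⟩ := cell_spec (K i0) (hK i0) (hQ i0) ε hε0 hε1.le (2 * m) M hM'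
        x hx.1 hx.2
      have hzG : z ∈ (ty i0).1 := by
        simp only [hty, Finset.mem_filter, hG, Fintype.mem_piFinset, Finset.mem_Icc]
        exact ⟨hz1, hz3⟩
      rw [← hteq] at hzG
      simp only [hty, Finset.mem_filter] at hzG
      exact hzG.2 hz2
    refine le_trans ?_ (measure_mono hsub)
    rw [Measure.addHaar_smul]
    have hVi : ENNReal.ofReal V ≤ volume (K i0 ∩ Q d (2 * m)) := by
      by_cases hKQ : K i0 ⊆ Q d (2 * m)
      · rw [inter_eq_left.2 hKQ]; exact hvol i0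
      · rw [not_subset] at hKQ
        obtain ⟨p, hp, hpQ⟩ := hKQ
        refine le_trans ?_ (large (K i0) (hK i0) (hQ i0) m hm1 p hp hpQ)
        rw [ENNReal.ofReal_le_natCast]
        linarith
    rw [ENNReal.ofReal_mul (by linarith)]
    apply mul_le_mul' _ hVi
    apply ENNReal.ofReal_le_ofReal
    rw [Module.finrank_fin_fun, abs_of_nonneg (pow_nonneg (by linarith) _)]
    exact hpow
  · have : (⋂ i ∈ {i | Fintype.equivFin _ (ty i) = j}, K i) = univ := by
      rw [eq_univ_iff_forall]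
      intro x
      simp only [mem_iInter, mem_setOf_eq]
      intro i hi
      exact absurd ⟨i, hi⟩ hne
    rw [this, univ_vol hd]
    exact le_top

end X73.VH
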