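import Mathlib
import Pool.Agent.X73.VH.Types

/-!
# Quantitative Helly theorem for volumes: the core (Steinitz step in the dual)
-/

set_option autoImplicit false

open Set MeasureTheory
open scoped Matrix

namespace X73.VH

variable {d : ℕ}

/-- A bounded set containing small multiples of the unit vectors contains a basis in which all
its elements have coordinates of absolute value at most `2`. -/
theorem near_basis (S : Set (Fin d → ℝ)) (R : ℝ) (hR : ∀ a ∈ S, ∀ k, |a k| ≤ R) (ε : ℝ)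
    (hε : 0 < ε) (he : ∀ k, Pi.single k ε ∈ S) :
    ∃ b : Fin d → (Fin d → ℝ), (∀ j, b j ∈ S) ∧ (Matrix.of b).det ≠ 0 ∧
      ∀ a ∈ S, ∃ β : Fin d → ℝ, (∀ j, |β j| ≤ 2) ∧ a = ∑ j, β j • b j := by
  classical
  set D : Set ℝ := {t | ∃ b : Fin d → (Fin d → ℝ), (∀ j, b j ∈ S) ∧ t = |(Matrix.of b).det|}
    with hD
  have hbdd : BddAbove D := by
    refine ⟨(Fintype.card (Fin d)).factorial • R ^ Fintype.card (Fin d), ?_⟩
    rintro t ⟨b, hb, rfl⟩
    exact Matrix.det_le (abv := AbsoluteValue.abs) (A := Matrix.of b)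
      (fun i j => hR (b i) (hb i) j)
  have hpos : ε ^ d ∈ D := by
    refine ⟨fun k => Pi.single k ε, he, ?_⟩
    have : Matrix.of (fun k : Fin d => (Pi.single k ε : Fin d → ℝ)) =
        Matrix.diagonal fun _ => ε := by
      ext i j
      rw [Matrix.of_apply, Matrix.diagonal_apply, Pi.single_apply]
      by_cases h : i = j
      · subst h; simp
      · rw [if_neg h, if_neg (Ne.symm h)]
    rw [this, Matrix.det_diagonal, Finset.prod_const, Finset.card_univ, Fintype.card_fin,
      abs_of_pos (pow_pos hε d)]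
  set σ := sSup D with hσ
  have hσ0 : 0 < σ := lt_of_lt_of_le (pow_pos hε d) (le_csSup hbdd hpos)
  obtain ⟨t, ⟨b, hb, rfl⟩, ht⟩ := exists_lt_of_lt_csSup ⟨_, hpos⟩ (show σ / 2 < sSup D by
    rw [← hσ]; linarith)
  have hdet : (Matrix.of b).det ≠ 0 := by
    intro h
    rw [h, abs_zero] at ht
    linarith
  refine ⟨b, hb, hdet, fun a ha => ?_⟩
  set M : Matrix (Fin d) (Fin d) ℝ := (Matrix.of b)ᵀ with hM
  have hMdet : M.det = (Matrix.of b).det := Matrix.det_transpose _
  refine ⟨fun j => M.cramer a j / M.det, fun j => ?_, ?_⟩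
  · have h1 : M.cramer a j = (Matrix.of (Function.update b j a)).det := by
      rw [Matrix.cramer_apply, hM, Matrix.updateCol_transpose, Matrix.det_transpose]
      rfl
    have h2 : |(Matrix.of (Function.update b j a)).det| ≤ σ := by
      apply le_csSup hbdd
      refine ⟨_, fun k => ?_, rfl⟩
      by_cases hk : k = j
      · subst hk; rw [Function.update_self]; exact ha
      · rw [Function.update_of_ne hk]; exact hb k
    rw [abs_div, h1, hMdet, div_le_iff₀ (abs_pos.2 hdet)]
    linarith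
  · have h1 := Matrix.mulVec_cramer M a
    have h2 : a = (M.det)⁻¹ • (M.det • a) := by
      rw [smul_smul, inv_mul_cancel₀ (by rw [hMdet]; exact hdet), one_smul]
    refine h2.trans ?_
    rw [← h1]
    funext k
    simp only [Pi.smul_apply, Matrix.mulVec, dotProduct, smul_eq_mul, Finset.sum_apply, hM,
      Matrix.transpose_apply, Matrix.of_apply]
    rw [Finset.mul_sum]
    refine Finset.sum_congr rfl fun j _ => ?_
    ring

/-- Carathéodory's theorem for cones with control of the sum of the coefficients. -/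
theorem conic (n : ℕ) : ∀ (t : Finset (Fin d → ℝ)) (μ : (Fin d → ℝ) → ℝ), t.card = n →
    (∀ a ∈ t, 0 ≤ μ a) → ∑ a ∈ t, μ a ≤ 1 →
    ∃ t' ⊆ t, t'.card ≤ d ∧ ∃ μ' : (Fin d → ℝ) → ℝ, (∀ a ∈ t', 0 ≤ μ' a) ∧
      ∑ a ∈ t', μ' a ≤ 1 ∧ ∑ a ∈ t', μ' a • a = ∑ a ∈ t, μ a • a := by
  classical
  induction n with
  | zero =>
    intro t μ ht hμ hs
    exact ⟨t, Finset.Subset.refl _, by omega, μ, hμ, hs, rfl⟩
  | succ n ih =>
    intro t μ ht hμ hs
    by_cases hcard : t.card ≤ d
    · exact ⟨t, Finset.Subset.refl _, hcard, μ, hμ, hs, rfl⟩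
    push Not at hcard
    have hex : ∃ f : (Fin d → ℝ) → ℝ, ∑ e ∈ t, f e • e = 0 ∧ (∃ x ∈ t, f x ≠ 0) ∧
        0 ≤ ∑ e ∈ t, f e := by
      obtain ⟨f, h1, h2⟩ := Module.exists_nontrivial_relation_of_finrank_lt_card (R := ℝ)
        (t := t) (by rw [Module.finrank_fin_fun]; exact hcard)
      rcases le_total 0 (∑ e ∈ t, f e) with h | h
      · exact ⟨f, h1, h2, h⟩
      · refine ⟨fun e => - f e, ?_, ?_, ?_⟩
        · simp only [neg_smul, Finset.sum_neg_distrib, h1, neg_zero]
        · obtain ⟨x, hx, hx'⟩ := h2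
          exact ⟨x, hx, neg_ne_zero.2 hx'⟩
        · rw [Finset.sum_neg_distrib]; linarith
    obtain ⟨f, h1, ⟨x, hx, hx'⟩, h3⟩ := hex
    have hpos : (t.filter fun e => 0 < f e).Nonempty := by
      by_contra hne
      rw [Finset.not_nonempty_iff_eq_empty, Finset.filter_eq_empty_iff] at hne
      have h4 : ∀ e ∈ t, f e ≤ 0 := fun e he => not_lt.1 (hne he)
      have h5 : ∑ e ∈ t, f e < 0 := by
        apply Finset.sum_neg' h4
        exact ⟨x, hx, lt_of_le_of_ne (h4 x hx) hx'⟩
      linarith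
    obtain ⟨x0, hx0, hmin⟩ := Finset.exists_min_image _ (fun e => μ e / f e) hpos
    rw [Finset.mem_filter] at hx0
    set θ := μ x0 / f x0 with hθ
    have hθ0 : 0 ≤ θ := div_nonneg (hμ x0 hx0.1) hx0.2.le
    set μ1 : (Fin d → ℝ) → ℝ := fun a => μ a - θ * f a with hμ1
    have hμ1n : ∀ a ∈ t, 0 ≤ μ1 a := by
      intro a ha
      simp only [hμ1]
      by_cases hfa : 0 < f a
      · have := hmin a (Finset.mem_filter.2 ⟨ha, hfa⟩)
        rw [le_div_iff₀ hfa] at this
        linarith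
      · have := hμ a ha
        have h6 : θ * f a ≤ 0 := mul_nonpos_of_nonneg_of_nonpos hθ0 (not_lt.1 hfa)
        linarith
    have hμ10 : μ1 x0 = 0 := by
      simp only [hμ1, hθ]
      rw [div_mul_cancel₀ _ hx0.2.ne', sub_self]
    have hsum1 : ∑ a ∈ t, μ1 a ≤ 1 := by
      simp only [hμ1]
      rw [Finset.sum_sub_distrib, ← Finset.mul_sum]
      have := mul_nonneg hθ0 h3
      linarith
    have hvec : ∑ a ∈ t, μ1 a • a = ∑ a ∈ t, μ a • a := by
      simp only [hμ1, sub_smul]
      rw [Finset.sum_sub_distrib]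
      have : ∑ a ∈ t, (θ * f a) • a = 0 := by
        simp only [mul_smul]
        rw [← Finset.smul_sum, h1, smul_zero]
      rw [this, sub_zero]
    obtain ⟨t', ht', hc', μ', h7, h8, h9⟩ := ih (t.erase x0) μ1
      (by rw [Finset.card_erase_of_mem hx0.1]; omega)
      (fun a ha => hμ1n a (Finset.mem_of_mem_erase ha))
      (by
        rw [← Finset.add_sum_erase t μ1 hx0.1, hμ10, zero_add] at hsum1
        exact hsum1)
    refine ⟨t', ht'.trans (Finset.erase_subset _ _), hc', μ', h7, h8, ?_⟩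
    rw [h9, ← hvec, ← Finset.add_sum_erase t (fun a => μ1 a • a) hx0.1, hμ10, zero_smul, zero_add]

theorem dot_abs_le (a x : Fin d → ℝ) (r s : ℝ) (hs : 0 ≤ s) (ha : ∀ k, |a k| ≤ s) (hx : ∀ k, |x k| ≤ r) :
    |a ⬝ᵥ x| ≤ d * (s * r) := by
  unfold dotProduct
  refine (Finset.abs_sum_le_sum_abs _ _).trans ?_
  have : ∀ k ∈ (Finset.univ : Finset (Fin d)), |a k * x k| ≤ s * r := by
    intro k _
    rw [abs_mul]
    exact mul_le_mul (ha k) (hx k) (abs_nonneg _) hs
  refine (Finset.sum_le_sum this).trans ?_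
  simp

/-- the functionals bounded by one on some member -/
def Pol {ι : Type} (K : ι → Set (Fin d → ℝ)) : Set (Fin d → ℝ) :=
  {a | ∃ i, ∀ x ∈ K i, a ⬝ᵥ x ≤ 1}

theorem fun_eq_dot (f : (Fin d → ℝ) →ₗ[ℝ] ℝ) (a : Fin d → ℝ) :
    f a = a ⬝ᵥ (fun k => f (Pi.single k 1)) := by
  conv_lhs => rw [pi_eq_sum_univ' a]
  rw [map_sum]
  unfold dotProduct
  refine Finset.sum_congr rfl fun k _ => ?_
  rw [map_smul, smul_eq_mul]

/-- A functional at most `1/2` on the intersection is a convex combination of functionals at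
most `1` on members. -/
theorem duality {ι : Type} [Nonempty ι] (hd : 1 ≤ d) (K : ι → Set (Fin d → ℝ))
    (hK : ∀ i, Convex ℝ (K i)) (hQ : ∀ i, Q d 1 ⊆ K i) (R : ℝ) (hR : 0 < R)
    (hKR : ∀ i, K i ⊆ Q d R) (b : Fin d → ℝ) (hb : ∀ x ∈ ⋂ i, K i, b ⬝ᵥ x ≤ 1 / 2) :
    b ∈ convexHull ℝ (Pol K) := by
  classical
  have hdR : (1 : ℝ) ≤ d := by exact_mod_cast hd
  by_contra hbn
  set s := interior (convexHull ℝ (Pol K)) with hs
  have hbs : b ∉ s := fun h => hbn (interior_subset h)
  have hconv : Convex ℝ s := (convex_convexHull ℝ _).interior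
  obtain ⟨f, hf⟩ := geometric_hahn_banach_open_point hconv isOpen_interior hbs
  -- zero is an interior point
  have h0 : (0 : Fin d → ℝ) ∈ s := by
    rw [hs, mem_interior_iff_mem_nhds]
    obtain ⟨i⟩ := ‹Nonempty ι›
    refine Filter.mem_of_superset (Metric.closedBall_mem_nhds (0 : Fin d → ℝ)
      (show 0 < 1 / (d * R) by positivity)) ?_
    intro a ha
    apply subset_convexHull
    refine ⟨i, fun x hx => ?_⟩
    rw [Metric.mem_closedBall, dist_zero_right] at ha
    have h1 := dot_abs_le a x R (1 / (d * R)) (by positivity)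
      (fun k => (norm_le_pi_norm a k).trans ha) (hKR i hx)
    refine (le_abs_self _).trans (h1.trans ?_)
    apply le_of_eq
    field_simp
  set x : Fin d → ℝ := fun k => f (Pi.single k 1) with hx
  have hfx : ∀ a, f a = a ⬝ᵥ x := fun a => fun_eq_dot (f : (Fin d → ℝ) →ₗ[ℝ] ℝ) a
  set u := f b with hu
  have hu0 : 0 < u := by
    have := hf 0 h0
    rwa [map_zero] at this
  have hA : ∀ a ∈ Pol K, a ⬝ᵥ x ≤ 3 / 2 * u := by
    intro a ha
    have h1 : (2 / 3 : ℝ) • a ∈ s := by
      apply (convex_convexHull ℝ (Pol K)).openSegment_interior_closure_subset_interior h0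
        (subset_closure (subset_convexHull ℝ _ ha))
      exact ⟨1 / 3, 2 / 3, by norm_num, by norm_num, by norm_num, by simp⟩
    have h2 := hf _ h1
    rw [map_smul, smul_eq_mul, hfx a] at h2
    linarith
  set z : Fin d → ℝ := (2 / (3 * u)) • x with hz
  have hzA : ∀ a ∈ Pol K, a ⬝ᵥ z ≤ 1 := by
    intro a ha
    rw [hz, dotProduct_smul, smul_eq_mul, div_mul_eq_mul_div, div_le_one (by positivity)]
    linarith [hA a ha]
  have hzc : ∀ i, z ∈ closure (K i) := by
    intro i
    by_contra hzi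
    obtain ⟨g, v, hg1, hg2⟩ := geometric_hahn_banach_closed_point (hK i).closure
      isClosed_closure hzi
    have hv0 : 0 < v := by
      have := hg1 0 (subset_closure (hQ i (zero_mem_Q zero_le_one)))
      rwa [map_zero] at this
    have hgx : ∀ y, g y = y ⬝ᵥ (fun k => g (Pi.single k 1)) :=
      fun y => fun_eq_dot (g : (Fin d → ℝ) →ₗ[ℝ] ℝ) y
    have hmem : (1 / v) • (fun k => g (Pi.single k 1)) ∈ Pol K := by
      refine ⟨i, fun y hy => ?_⟩
      rw [smul_dotProduct, smul_eq_mul, dotProduct_comm, ← hgx, div_mul_eq_mul_div, one_mul,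
        div_le_one hv0]
      exact (hg1 y (subset_closure hy)).le
    have := hzA _ hmem
    rw [smul_dotProduct, smul_eq_mul, dotProduct_comm, ← hgx, div_mul_eq_mul_div, one_mul,
      div_le_one hv0] at this
    linarith
  have hzK : (4 / 5 : ℝ) • z ∈ ⋂ i, K i := by
    rw [mem_iInter]
    intro i
    have h0i : (0 : Fin d → ℝ) ∈ interior (K i) := by
      rw [mem_interior_iff_mem_nhds]
      refine Filter.mem_of_superset (Metric.closedBall_mem_nhds (0 : Fin d → ℝ) one_pos) ?_
      intro a ha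
      rw [Metric.mem_closedBall, dist_zero_right] at ha
      exact hQ i fun k => (norm_le_pi_norm a k).trans ha
    apply interior_subset
    apply (hK i).openSegment_interior_closure_subset_interior h0i (hzc i)
    exact ⟨1 / 5, 4 / 5, by norm_num, by norm_num, by norm_num, by simp⟩
  have h1 := hb _ hzK
  rw [dotProduct_smul, hz, dotProduct_smul, smul_eq_mul, smul_eq_mul, ← hfx b, ← hu] at h1
  have h2 : (4 / 5 : ℝ) * (2 / (3 * u) * u) = 8 / 15 := by
    field_simp
    norm_num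
  rw [h2] at h1
  norm_num at h1

/-- If the members contain the unit cube and their intersection lies in a cube of half-side
`ρ`, then at most `2 d` of them have an intersection inside a cube of half-side `12 d² ρ²`. -/
theorem core {ι : Type} [Nonempty ι] (hd : 1 ≤ d) (K : ι → Set (Fin d → ℝ))
    (hK : ∀ i, Convex ℝ (K i)) (hQ : ∀ i, Q d 1 ⊆ K i) (R : ℝ) (hR : 0 < R)
    (hKR : ∀ i, K i ⊆ Q d R) (ρ : ℝ) (hρ : 1 ≤ ρ) (hC : (⋂ i, K i) ⊆ Q d ρ) :
    ∃ I : Finset ι, I.card ≤ 2 * d ∧ (⋂ i ∈ I, K i) ⊆ Q d (12 * d ^ 2 * ρ ^ 2) := by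
  classical
  have hdR : (1 : ℝ) ≤ d := by exact_mod_cast hd
  -- the functionals have coordinate sum at most one
  have hA1 : ∀ a ∈ Pol K, ∑ k, |a k| ≤ 1 := by
    rintro a ⟨i, hi⟩
    have h1 : (fun k => if 0 ≤ a k then (1 : ℝ) else -1) ∈ K i := by
      apply hQ i
      intro k
      simp only
      split_ifs <;> simp
    have h2 := hi _ h1
    refine le_trans (le_of_eq ?_) h2
    unfold dotProduct
    refine Finset.sum_congr rfl fun k _ => ?_
    simp only
    split_ifs with h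
    · rw [abs_of_nonneg h, mul_one]
    · rw [abs_of_neg (not_le.1 h)]; ring
  have hA2 : ∀ a ∈ Pol K, ∀ k, |a k| ≤ 1 := fun a ha k =>
    (Finset.single_le_sum (f := fun k => |a k|) (fun _ _ => abs_nonneg _)
      (Finset.mem_univ k)).trans (hA1 a ha)
  have hA3 : ∀ k, Pi.single k (1 / R) ∈ Pol K := by
    intro k
    obtain ⟨i⟩ := ‹Nonempty ι›
    refine ⟨i, fun x hx => ?_⟩
    rw [single_dotProduct, div_mul_eq_mul_div, one_mul, div_le_one hR]
    exact (le_abs_self _).trans (hKR i hx k)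
  obtain ⟨b, hbS, _, hbβ⟩ := near_basis (Pol K) 1 hA2 (1 / R) (by positivity) hA3
  -- coordinates in the basis, for the convex hull
  have hhull : ∀ a ∈ convexHull ℝ (Pol K), ∃ β : Fin d → ℝ, (∀ j, |β j| ≤ 2) ∧
      a = ∑ j, β j • b j := by
    intro a ha
    have hcv : Convex ℝ {a : Fin d → ℝ | ∃ β : Fin d → ℝ, (∀ j, |β j| ≤ 2) ∧
        a = ∑ j, β j • b j} := by
      rintro a ⟨β, hβ, rfl⟩ a' ⟨β', hβ', rfl⟩ s t hs ht hst
      refine ⟨fun j => s * β j + t * β' j, fun j => ?_, ?_⟩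
      · refine (abs_add_le _ _).trans ?_
        rw [abs_mul, abs_mul, abs_of_nonneg hs, abs_of_nonneg ht]
        nlinarith [hβ j, hβ' j]
      · rw [Finset.smul_sum, Finset.smul_sum, ← Finset.sum_add_distrib]
        refine Finset.sum_congr rfl fun j _ => ?_
        rw [add_smul, mul_smul, mul_smul]
    exact convexHull_min (fun a ha => hbβ a ha) hcv ha
  -- the unit vectors
  have hunit : ∀ k, ∃ β : Fin d → ℝ, (∀ j, |β j| ≤ 2) ∧
      Pi.single k (1 / (2 * ρ)) = ∑ j, β j • b j := by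
    intro k
    apply hhull
    apply duality hd K hK hQ R hR hKR
    intro x hx
    rw [single_dotProduct, div_mul_eq_mul_div, one_mul, div_le_div_iff₀ (by positivity)
      (by norm_num)]
    have := (le_abs_self (x k)).trans (hC hx k)
    linarith
  -- the negative of the sum
  set s : ℝ := 1 / (2 * d * ρ) with hs
  have hs0 : 0 < s := by positivity
  have hneg : -(s • ∑ j, b j) ∈ convexHull ℝ (Pol K) := by
    apply duality hd K hK hQ R hR hKR
    intro x hx
    have h1 : ∀ j, |b j ⬝ᵥ x| ≤ ρ := by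
      intro j
      unfold dotProduct
      refine (Finset.abs_sum_le_sum_abs _ _).trans ?_
      have h2 : ∀ k ∈ (Finset.univ : Finset (Fin d)), |b j k * x k| ≤ |b j k| * ρ := by
        intro k _
        rw [abs_mul]
        exact mul_le_mul_of_nonneg_left (hC hx k) (abs_nonneg _)
      refine (Finset.sum_le_sum h2).trans ?_
      rw [← Finset.sum_mul]
      have := hA1 (b j) (hbS j)
      nlinarith
    rw [neg_dotProduct, smul_dotProduct, sum_dotProduct, smul_eq_mul]
    have h3 : -(s * ∑ j, b j ⬝ᵥ x) ≤ s * (d * ρ) := by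
      have h4 : |∑ j, b j ⬝ᵥ x| ≤ d * ρ := by
        refine (Finset.abs_sum_le_sum_abs _ _).trans ?_
        refine (Finset.sum_le_sum fun j _ => h1 j).trans ?_
        simp
      have h5 := neg_abs_le (∑ j, b j ⬝ᵥ x)
      nlinarith
    refine h3.trans (le_of_eq ?_)
    rw [hs]; field_simp
  -- a conical combination
  obtain ⟨t0, ht0, hxt⟩ : ∃ t0 : Finset (Fin d → ℝ), (t0 : Set (Fin d → ℝ)) ⊆ Pol K ∧
      -(s • ∑ j, b j) ∈ convexHull ℝ (t0 : Set (Fin d → ℝ)) := by
    rw [convexHull_eq_union_convexHull_finite_subsets] at hneg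
    simp only [mem_iUnion] at hneg
    obtain ⟨t0, h1, h2⟩ := hneg
    exact ⟨t0, h1, h2⟩
  rw [Finset.mem_convexHull'] at hxt
  obtain ⟨μ0, hμ0, hμs, hμv⟩ := hxt
  obtain ⟨t, htt, htc, μ, hμ, hμ1, hμ2⟩ := conic t0.card t0 μ0 rfl hμ0 hμs.le
  rw [hμv] at hμ2
  -- the indices
  have hidx : ∀ a : {a // a ∈ Pol K}, ∃ i, ∀ x ∈ K i, a.1 ⬝ᵥ x ≤ 1 := fun a => a.2
  choose φ hφ using hidx
  set I : Finset ι := (Finset.univ.image fun j => φ ⟨b j, hbS j⟩) ∪
    (t.attach.image fun a => φ ⟨a.1, ht0 (htt a.2)⟩) with hI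
  refine ⟨I, ?_, ?_⟩
  · refine (Finset.card_union_le _ _).trans ?_
    have h1 : (Finset.univ.image fun j => φ ⟨b j, hbS j⟩).card ≤ d := by
      refine Finset.card_image_le.trans ?_
      simp
    have h2 : (t.attach.image fun a => φ ⟨a.1, ht0 (htt a.2)⟩).card ≤ d := by
      refine Finset.card_image_le.trans ?_
      rw [Finset.card_attach]; exact htc
    omega
  · intro y hy
    simp only [mem_iInter] at hy
    have hbj : ∀ j, b j ⬝ᵥ y ≤ 1 := by
      intro j
      apply hφ ⟨b j, hbS j⟩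
      apply hy
      exact Finset.mem_union_left _ (Finset.mem_image_of_mem _ (Finset.mem_univ j))
    have hta : ∀ a ∈ t, a ⬝ᵥ y ≤ 1 := by
      intro a ha
      apply hφ ⟨a, ht0 (htt ha)⟩
      apply hy
      apply Finset.mem_union_right
      exact Finset.mem_image.2 ⟨⟨a, ha⟩, Finset.mem_attach _ _, rfl⟩
    have h1 : -(s * ∑ j, b j ⬝ᵥ y) ≤ 1 := by
      have h2 : (-(s • ∑ j, b j)) ⬝ᵥ y = ∑ a ∈ t, μ a * (a ⬝ᵥ y) := by
        rw [← hμ2, sum_dotProduct]
        refine Finset.sum_congr rfl fun a _ => ?_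
        rw [smul_dotProduct, smul_eq_mul]
      rw [neg_dotProduct, smul_dotProduct, sum_dotProduct, smul_eq_mul] at h2
      rw [h2]
      refine le_trans (Finset.sum_le_sum fun a ha => ?_) hμ1
      have := mul_le_mul_of_nonneg_left (hta a ha) (hμ a ha)
      linarith
    have h1' : -(2 * d * ρ) ≤ ∑ j, b j ⬝ᵥ y := by
      have h3 : -(1 / s) ≤ ∑ j, b j ⬝ᵥ y := by
        have h4 : 0 ≤ 1 / s * (1 - -(s * ∑ j, b j ⬝ᵥ y)) := by
          apply mul_nonneg (by positivity)
          linarith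
        have h5 : 1 / s * (1 - -(s * ∑ j, b j ⬝ᵥ y)) = 1 / s + ∑ j, b j ⬝ᵥ y := by
          field_simp
          ring
        linarith
      have h4 : 1 / s = 2 * d * ρ := by rw [hs, one_div_one_div]
      rw [h4] at h3; exact h3
    have hbabs : ∀ j, |b j ⬝ᵥ y| ≤ 3 * d * ρ := by
      intro j
      have h3 : ∑ j', b j' ⬝ᵥ y ≤ b j ⬝ᵥ y + (d - 1) := by
        rw [← Finset.add_sum_erase _ _ (Finset.mem_univ j)]
        have h4 : ∑ j' ∈ Finset.univ.erase j, b j' ⬝ᵥ y ≤ ∑ j' ∈ Finset.univ.erase j, (1 : ℝ) :=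
          Finset.sum_le_sum fun j' _ => hbj j'
        have h5 : ∑ j' ∈ (Finset.univ : Finset (Fin d)).erase j, (1 : ℝ) = d - 1 := by
          rw [Finset.sum_const, Finset.card_erase_of_mem (Finset.mem_univ j), Finset.card_univ,
            Fintype.card_fin, nsmul_eq_mul, mul_one, Nat.cast_sub hd, Nat.cast_one]
        linarith
      rw [abs_le]
      have h6 : (1 : ℝ) ≤ d * ρ := by nlinarith
      have h7 : (d : ℝ) ≤ d * ρ := by nlinarith
      constructor
      · linarith
      · linarith [hbj j]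
    intro k
    obtain ⟨β, hβ, hβ2⟩ := hunit k
    have h3 : 1 / (2 * ρ) * y k = ∑ j, β j * (b j ⬝ᵥ y) := by
      have h4 : (Pi.single k (1 / (2 * ρ)) : Fin d → ℝ) ⬝ᵥ y = (∑ j, β j • b j) ⬝ᵥ y := by
        rw [hβ2]
      rw [single_dotProduct, sum_dotProduct] at h4
      rw [h4]
      refine Finset.sum_congr rfl fun j _ => ?_
      rw [smul_dotProduct, smul_eq_mul]
    have h5 : |1 / (2 * ρ) * y k| ≤ d * (2 * (3 * d * ρ)) := by
      rw [h3]
      refine (Finset.abs_sum_le_sum_abs _ _).trans ?_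
      have : ∀ j ∈ (Finset.univ : Finset (Fin d)), |β j * (b j ⬝ᵥ y)| ≤ 2 * (3 * d * ρ) := by
        intro j _
        rw [abs_mul]
        exact mul_le_mul (hβ j) (hbabs j) (abs_nonneg _) (by norm_num)
      refine (Finset.sum_le_sum this).trans ?_
      simp
    rw [abs_mul, abs_of_pos (show 0 < 1 / (2 * ρ) by positivity), div_mul_eq_mul_div, one_mul,
      div_le_iff₀ (by positivity)] at h5
    refine h5.trans (le_of_eq ?_)
    ring

end X73.VH
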