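import Mathlib
import Pool.Agent.X73.VH.Core

/-!
# Quantitative Helly theorem for volumes, with position, and the partition theorem
-/

set_option autoImplicit false

open Set MeasureTheory
open scoped Matrix

namespace X73.VH

variable {d : ℕ}

/-- Affine coordinates in which a bounded convex set with interior points is between two cubes. -/
theorem position (hd : 1 ≤ d) (C : Set (Fin d → ℝ)) (hC : Convex ℝ C) (R : ℝ) (hR : C ⊆ Q d R)
    (x0 : Fin d → ℝ) (hx0 : x0 ∈ interior C) :
    ∃ (p : Fin d → ℝ) (b : Fin d → (Fin d → ℝ)), (Matrix.of b).det ≠ 0 ∧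
      (∀ l ∈ Q d 1, p + ∑ j, l j • b j ∈ C) ∧
      ∀ x ∈ C, ∃ l ∈ Q d (3 * d * (d + 1)), x = p + ∑ j, l j • b j := by
  classical
  have hdR : (1 : ℝ) ≤ d := by exact_mod_cast hd
  obtain ⟨r, hr, hball⟩ := Metric.isOpen_iff.1 isOpen_interior x0 hx0
  set S : Set (Fin d → ℝ) := {v | x0 + v ∈ C} with hS
  have hS1 : ∀ a ∈ S, ∀ k, |a k| ≤ 2 * R := by
    intro a ha k
    have h1 : |x0 k + a k| ≤ R := hR ha k
    have h2 : |x0 k| ≤ R := hR (interior_subset hx0) k
    have h3 : |a k| ≤ |x0 k + a k| + |x0 k| := by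
      have := abs_sub (x0 k + a k) (x0 k)
      simpa using this
    linarith
  have hS2 : ∀ k, (Pi.single k (r / 2) : Fin d → ℝ) ∈ S := by
    intro k
    show x0 + Pi.single k (r / 2) ∈ C
    apply interior_subset
    apply hball
    rw [Metric.mem_ball, dist_eq_norm, add_sub_cancel_left, pi_norm_lt_iff hr]
    intro j
    rw [Pi.single_apply]
    split_ifs
    · rw [Real.norm_eq_abs, abs_of_pos (by linarith)]; linarith
    · rw [norm_zero]; exact hr
  obtain ⟨b0, hb0S, hdet, hβ⟩ := near_basis S (2 * R) hS1 (r / 2) (by linarith) hS2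
  set c : ℝ := 1 / (d * (d + 1)) with hc
  have hc0 : 0 < c := by positivity
  have hd1 : (0 : ℝ) < d + 1 := by positivity
  have hcd : c ≤ 1 / (d + 1) := by
    rw [hc]
    apply one_div_le_one_div_of_le hd1
    nlinarith
  refine ⟨x0 + ∑ j, (1 / ((d : ℝ) + 1)) • b0 j, fun j => c • b0 j, ?_, ?_, ?_⟩
  · have : Matrix.of (fun j => c • b0 j) = c • Matrix.of b0 := by
      ext i j; simp
    rw [this, Matrix.det_smul]
    exact mul_ne_zero (pow_ne_zero _ hc0.ne') hdet
  · intro l hl
    set t : Fin d → ℝ := fun j => 1 / ((d : ℝ) + 1) + c * l j with ht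
    have ht0 : ∀ j, 0 ≤ t j := by
      intro j
      have := abs_le.1 (hl j)
      simp only [ht]
      nlinarith [this.1]
    have hts : ∑ j, t j ≤ 1 := by
      have h1 : ∀ j ∈ (Finset.univ : Finset (Fin d)), t j ≤ 1 / ((d : ℝ) + 1) + c := by
        intro j _
        have := abs_le.1 (hl j)
        simp only [ht]
        nlinarith [this.2]
      refine (Finset.sum_le_sum h1).trans (le_of_eq ?_)
      rw [Finset.sum_const, Finset.card_univ, Fintype.card_fin, nsmul_eq_mul, hc]
      field_simp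
    have h2 : x0 + ∑ j, (1 / ((d : ℝ) + 1)) • b0 j + ∑ j, l j • c • b0 j =
        (1 - ∑ j, t j) • x0 + ∑ j, t j • (x0 + b0 j) := by
      have h3 : ∑ j, t j • (x0 + b0 j) = (∑ j, t j) • x0 + ∑ j, t j • b0 j := by
        simp only [smul_add]
        rw [Finset.sum_add_distrib, Finset.sum_smul]
      have h4 : ∑ j, t j • b0 j = ∑ j, (1 / ((d : ℝ) + 1)) • b0 j + ∑ j, l j • c • b0 j := by
        rw [← Finset.sum_add_distrib]
        refine Finset.sum_congr rfl fun j _ => ?_
        simp only [ht]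
        rw [add_smul, smul_smul, mul_comm c]
      rw [h3, h4, sub_smul, one_smul]
      abel
    rw [h2]
    -- convexity
    have h5 : ∑ o : Option (Fin d), (match o with
        | none => (1 - ∑ j, t j)
        | some j => t j) • (match o with
        | none => x0
        | some j => x0 + b0 j) ∈ C := by
      apply hC.sum_mem
      · rintro (_ | j) _
        · simp only; linarith
        · exact ht0 j
      · rw [Fintype.sum_option]; ring
      · rintro (_ | j) _
        · exact interior_subset hx0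
        · exact hb0S j
    rw [Fintype.sum_option] at h5
    exact h5
  · intro x hx
    obtain ⟨β, hβ1, hβ2⟩ := hβ (x - x0) (by
      show x0 + (x - x0) ∈ C
      rw [add_sub_cancel]; exact hx)
    refine ⟨fun j => (β j - 1 / ((d : ℝ) + 1)) / c, fun j => ?_, ?_⟩
    · rw [abs_div, abs_of_pos hc0, div_le_iff₀ hc0]
      have h1 : (3 * d * (d + 1) : ℝ) * c = 3 := by rw [hc]; field_simp
      rw [h1]
      have h2 := abs_le.1 (hβ1 j)
      have h3 : 1 / ((d : ℝ) + 1) ≤ 1 := by
        rw [div_le_one hd1]; linarith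
      have h4 : 0 ≤ 1 / ((d : ℝ) + 1) := by positivity
      rw [abs_le]; constructor <;> linarith [h2.1, h2.2]
    · have h1 : ∑ j, ((β j - 1 / ((d : ℝ) + 1)) / c) • c • b0 j =
          ∑ j, β j • b0 j - ∑ j, (1 / ((d : ℝ) + 1)) • b0 j := by
        rw [← Finset.sum_sub_distrib]
        refine Finset.sum_congr rfl fun j _ => ?_
        rw [smul_smul, div_mul_cancel₀ _ hc0.ne', sub_smul]
      rw [h1, ← hβ2]
      abel

/-- Volumes in affine coordinates. -/
theorem vol_coord (p : Fin d → ℝ) (b : Fin d → (Fin d → ℝ)) (hdet : (Matrix.of b).det ≠ 0)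
    (S : Set (Fin d → ℝ)) :
    volume S = ENNReal.ofReal |(Matrix.of b).det| * volume {l : Fin d → ℝ | p + ∑ j, l j • b j ∈ S} := by
  set T : (Fin d → ℝ) →ₗ[ℝ] (Fin d → ℝ) := Matrix.toLin' (Matrix.of b)ᵀ with hT
  have hTdet : LinearMap.det T = (Matrix.of b).det := by
    rw [hT, LinearMap.det_toLin', Matrix.det_transpose]
  have hTapp : ∀ l, T l = ∑ j, l j • b j := by
    intro l
    funext k
    rw [hT, Matrix.toLin'_apply, Matrix.mulVec, dotProduct, Finset.sum_apply]
    refine Finset.sum_congr rfl fun j _ => ?_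
    rw [Matrix.transpose_apply, Matrix.of_apply, Pi.smul_apply, smul_eq_mul, mul_comm]
  have hTs : Function.Surjective T := by
    intro y
    refine ⟨((Matrix.of b)ᵀ)⁻¹ *ᵥ y, ?_⟩
    rw [hT, Matrix.toLin'_apply, Matrix.mulVec_mulVec, Matrix.mul_nonsing_inv, Matrix.one_mulVec]
    rw [Matrix.det_transpose]
    exact isUnit_iff_ne_zero.2 hdet
  set U : Set (Fin d → ℝ) := {l : Fin d → ℝ | p + ∑ j, l j • b j ∈ S} with hU
  have hS : S = (fun x => p + x) '' (T '' U) := by
    ext x
    constructor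
    · intro hx
      obtain ⟨l, hl⟩ := hTs (x - p)
      refine ⟨x - p, ⟨l, ?_, hl⟩, by simp⟩
      show p + ∑ j, l j • b j ∈ S
      rw [← hTapp, hl, add_sub_cancel]
      exact hx
    · rintro ⟨_, ⟨l, hl, rfl⟩, rfl⟩
      have : p + ∑ j, l j • b j ∈ S := hl
      rw [← hTapp] at this
      exact this
  rw [hS, Set.image_add_left, measure_preimage_add, Measure.addHaar_image_linearMap, hTdet]

theorem Q_eq (r : ℝ) : Q d r = Icc (fun _ => -r) (fun _ => r) := by
  ext x
  simp only [Q, mem_Icc, Pi.le_def]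
  constructor
  · intro h; exact ⟨fun k => (abs_le.1 (h k)).1, fun k => (abs_le.1 (h k)).2⟩
  · intro h k; exact abs_le.2 ⟨h.1 k, h.2 k⟩

theorem vol_Q (r : ℝ) (hr : 0 ≤ r) : volume (Q d r) = ENNReal.ofReal ((2 * r) ^ d) := by
  rw [Q_eq, Real.volume_Icc_pi]
  simp only [sub_neg_eq_add]
  rw [Finset.prod_const, Finset.card_univ, Fintype.card_fin, ENNReal.ofReal_pow (by linarith)]
  congr 2
  ring

theorem convex_coord (p : Fin d → ℝ) (b : Fin d → (Fin d → ℝ)) (S : Set (Fin d → ℝ))
    (hS : Convex ℝ S) : Convex ℝ {l : Fin d → ℝ | p + ∑ j, l j • b j ∈ S} := by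
  intro l hl l' hl' s t hs ht hst
  have := hS hl hl' hs ht hst
  show p + ∑ j, (s • l + t • l') j • b j ∈ S
  convert this using 1
  rw [smul_add, smul_add, Finset.smul_sum, Finset.smul_sum]
  have h1 : ∑ j, (s • l + t • l') j • b j = ∑ j, s • l j • b j + ∑ j, t • l' j • b j := by
    rw [← Finset.sum_add_distrib]
    refine Finset.sum_congr rfl fun j _ => ?_
    rw [Pi.add_apply, Pi.smul_apply, Pi.smul_apply, add_smul, smul_assoc, smul_assoc]
  rw [h1]
  have h2 : p = s • p + t • p := by rw [← add_smul, hst, one_smul]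
  nth_rewrite 1 [h2]
  abel

/-- The constant of the quantitative Helly theorem below. -/
noncomputable def cM (d : ℕ) : ℝ := 12 * d ^ 2 * (3 * d * (d + 1)) ^ 2

/-- **Quantitative Helly theorem (Bárány–Katchalski–Pach), with a position.** -/
theorem bkp {ι : Type} [Finite ι] [Nonempty ι] (hd : 1 ≤ d) (K : ι → Set (Fin d → ℝ))
    (hK : ∀ i, Convex ℝ (K i)) (R : ℝ) (hR : ∀ i, K i ⊆ Q d R)
    (H : ∀ I : Finset ι, I.card ≤ 2 * d → ENNReal.ofReal (1 / 2) ≤ volume (⋂ i ∈ I, K i)) :
    ∃ (p : Fin d → ℝ) (b : Fin d → (Fin d → ℝ)), (Matrix.of b).det ≠ 0 ∧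
      (∀ i, ∀ l ∈ Q d 1, p + ∑ j, l j • b j ∈ K i) ∧
      1 / 2 ≤ |(Matrix.of b).det| * (2 * cM d) ^ d := by
  classical
  have := Fintype.ofFinite ι
  have hdR : (1 : ℝ) ≤ d := by exact_mod_cast hd
  -- an interior point
  have hint : (⋂ i ∈ (Finset.univ : Finset ι), interior (K i)).Nonempty := by
    apply Convex.helly_theorem' (𝕜 := ℝ) (fun i _ => (hK i).interior)
    intro I _ hI
    rw [Module.finrank_fin_fun] at hI
    have h1 := H I (by omega)
    have hcv : Convex ℝ (⋂ i ∈ I, K i) := convex_iInter₂ fun i _ => hK i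
    have h2 : (interior (⋂ i ∈ I, K i)).Nonempty := by
      by_contra hne
      rw [Set.not_nonempty_iff_eq_empty] at hne
      have h3 : volume (⋂ i ∈ I, K i) ≤ volume (frontier (⋂ i ∈ I, K i)) := by
        apply measure_mono
        intro x hx
        rw [frontier, hne, sdiff_empty]
        exact subset_closure hx
      rw [hcv.addHaar_frontier volume] at h3
      have h4 := h1.trans h3
      rw [nonpos_iff_eq_zero, ENNReal.ofReal_eq_zero] at h4
      norm_num at h4
    refine h2.mono ?_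
    intro x hx
    simp only [mem_iInter]
    intro i hi
    exact interior_mono (biInter_subset_of_mem (show i ∈ (I : Set ι) from hi)) hx
  obtain ⟨x0, hx0⟩ := hint
  simp only [Finset.mem_univ, iInter_true] at hx0
  have hx0' : x0 ∈ interior (⋂ i, K i) := by
    rw [interior_iInter_of_finite]
    exact hx0
  obtain ⟨i0⟩ := ‹Nonempty ι›
  have : Nonempty ι := ⟨i0⟩
  obtain ⟨p, b, hdet, hin, hout⟩ := position hd (⋂ i, K i) (convex_iInter fun i => hK i) R
    ((iInter_subset _ i0).trans (hR i0)) x0 hx0'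
  refine ⟨p, b, hdet, fun i l hl => mem_iInter.1 (hin l hl) i, ?_⟩
  -- the family in coordinates
  set L : ι → Set (Fin d → ℝ) := fun i => {l | p + ∑ j, l j • b j ∈ K i} with hL
  -- boundedness
  set N : Matrix (Fin d) (Fin d) ℝ := ((Matrix.of b)ᵀ)⁻¹ with hN
  have hNT : N * (Matrix.of b)ᵀ = 1 := by
    rw [hN, Matrix.nonsing_inv_mul]
    rw [Matrix.det_transpose]
    exact isUnit_iff_ne_zero.2 hdet
  have hR0 : 0 ≤ R := (abs_nonneg _).trans (hR i0 (interior_subset (mem_iInter.1 hx0 i0)) ⟨0, hd⟩)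
  have hbd : ∀ i, L i ⊆ Q d ((∑ k, ∑ j, |N k j|) * (R + ‖p‖) + 1) := by
    intro i l hl k
    have h1 : l = N *ᵥ (∑ j, l j • b j) := by
      have h2 : (∑ j, l j • b j) = (Matrix.of b)ᵀ *ᵥ l := by
        funext k'
        rw [Matrix.mulVec, dotProduct, Finset.sum_apply]
        refine Finset.sum_congr rfl fun j _ => ?_
        rw [Matrix.transpose_apply, Matrix.of_apply, Pi.smul_apply, smul_eq_mul, mul_comm]
      rw [h2, Matrix.mulVec_mulVec, hNT, Matrix.one_mulVec]
    have h3 : ∀ k', |(∑ j, l j • b j) k'| ≤ R + ‖p‖ := by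
      intro k'
      have h4 : |(p + ∑ j, l j • b j) k'| ≤ R := hR i hl k'
      rw [Pi.add_apply] at h4
      have h5 := norm_le_pi_norm p k'
      rw [Real.norm_eq_abs] at h5
      have h6 : |(∑ j, l j • b j) k'| ≤ |p k' + (∑ j, l j • b j) k'| + |p k'| := by
        have := abs_sub (p k' + (∑ j, l j • b j) k') (p k')
        simpa using this
      linarith
    rw [h1, Matrix.mulVec, dotProduct]
    refine (Finset.abs_sum_le_sum_abs _ _).trans ?_
    have h7 : ∀ j ∈ (Finset.univ : Finset (Fin d)), |N k j * (∑ j, l j • b j) j| ≤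
        |N k j| * (R + ‖p‖) := by
      intro j _
      rw [abs_mul]
      exact mul_le_mul_of_nonneg_left (h3 j) (abs_nonneg _)
    refine (Finset.sum_le_sum h7).trans ?_
    rw [← Finset.sum_mul]
    have h8 : ∑ j, |N k j| ≤ ∑ k, ∑ j, |N k j| :=
      Finset.single_le_sum (f := fun k => ∑ j, |N k j|)
        (fun _ _ => Finset.sum_nonneg fun _ _ => abs_nonneg _) (Finset.mem_univ k)
    have h9 := mul_le_mul_of_nonneg_right h8 (show 0 ≤ R + ‖p‖ by positivity)
    linarith
  have hρ : (1 : ℝ) ≤ 3 * d * (d + 1) := by nlinarith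
  have hcap : (⋂ i, L i) ⊆ Q d (3 * d * (d + 1)) := by
    intro l hl
    have h1 : p + ∑ j, l j • b j ∈ ⋂ i, K i := by
      rw [mem_iInter]; intro i; exact mem_iInter.1 hl i
    obtain ⟨l', hl', heq⟩ := hout _ h1
    have h2 : ∑ j, l j • b j = ∑ j, l' j • b j := add_left_cancel heq
    have h3 : (Matrix.of b)ᵀ *ᵥ l = (Matrix.of b)ᵀ *ᵥ l' := by
      have h4 : ∀ v : Fin d → ℝ, (Matrix.of b)ᵀ *ᵥ v = ∑ j, v j • b j := by
        intro v
        funext k'
        rw [Matrix.mulVec, dotProduct, Finset.sum_apply]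
        refine Finset.sum_congr rfl fun j _ => ?_
        rw [Matrix.transpose_apply, Matrix.of_apply, Pi.smul_apply, smul_eq_mul, mul_comm]
      rw [h4, h4, h2]
    have h5 : l = l' := by
      have h6 := congrArg (fun v => N *ᵥ v) h3
      simp only [Matrix.mulVec_mulVec, hNT, Matrix.one_mulVec] at h6
      exact h6
    rw [h5]; exact hl'
  obtain ⟨I, hI, hIQ⟩ := core hd L (fun i => convex_coord p b (K i) (hK i))
    (fun i l hl => mem_iInter.1 (hin l hl) i) _
    (by positivity : 0 < (∑ k, ∑ j, |N k j|) * (R + ‖p‖) + 1) hbd _ hρ hcap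
  have h1 := H I hI
  rw [vol_coord p b hdet] at h1
  have h2 : {l : Fin d → ℝ | p + ∑ j, l j • b j ∈ ⋂ i ∈ I, K i} ⊆ Q d (cM d) := by
    intro l hl
    apply hIQ
    simp only [mem_iInter]
    intro i hi
    have : p + ∑ j, l j • b j ∈ ⋂ i ∈ I, K i := hl
    simp only [mem_iInter] at this
    exact this i hi
  have hcM : 0 ≤ cM d := by unfold cM; positivity
  have h3 := h1.trans (mul_le_mul' le_rfl (measure_mono h2))
  rw [vol_Q _ hcM, ← ENNReal.ofReal_mul (abs_nonneg _), ENNReal.ofReal_le_ofReal_iff (by positivity)]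
    at h3
  exact h3

/-- **The partition theorem.** -/
theorem main (hd : 1 ≤ d) (δ : ℝ) (hδ : 0 < δ) :
    ∃ r : ℕ, ∀ (ι : Type) [Finite ι] (K : ι → Set (Fin d → ℝ)), (∀ i, Convex ℝ (K i)) →
      (∀ f : Fin (2 * d) → ι, 1 ≤ volume (⋂ j, K (f j))) →
      ∃ P : ι → Fin r, ∀ j, ENNReal.ofReal (1 - δ) ≤ volume (⋂ i ∈ {i | P i = j}, K i) := by
  classical
  by_cases hδ1 : 1 ≤ δ
  · refine ⟨1, fun ι _ K _ _ => ⟨fun _ => 0, fun j => ?_⟩⟩
    rw [ENNReal.ofReal_of_nonpos (by linarith)]
    exact zero_le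
  push Not at hδ1
  obtain ⟨r, hr⟩ := partition (d := d) hd (2 * (2 * cM d) ^ d) δ hδ hδ1
  refine ⟨r, fun ι _ K hK H => ?_⟩
  rcases isEmpty_or_nonempty ι with hι | hι
  · refine ⟨fun i => (hι.false i).elim, fun j => ?_⟩
    have : (⋂ i ∈ {i : ι | (fun i => (hι.false i).elim : ι → Fin r) i = j}, K i) = univ := by
      rw [eq_univ_iff_forall]
      intro x
      simp only [mem_iInter]
      intro i
      exact (hι.false i).elim
    rw [this, univ_vol hd]
    exact le_top
  -- finset form of the hypothesis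
  have H1 : ∀ I : Finset ι, I.card ≤ 2 * d → 1 ≤ volume (⋂ i ∈ I, K i) := by
    intro I hI
    obtain ⟨i0⟩ := hι
    set f : Fin (2 * d) → ι := fun j =>
      if h : j.1 < I.card then (I.equivFin.symm ⟨j.1, h⟩).1 else i0 with hf
    refine (H f).trans (measure_mono ?_)
    intro x hx
    rw [mem_iInter] at hx
    simp only [mem_iInter]
    intro i hi
    have h1 := hx ⟨(I.equivFin ⟨i, hi⟩).1, lt_of_lt_of_le (I.equivFin ⟨i, hi⟩).2 hI⟩
    have h2 : f ⟨(I.equivFin ⟨i, hi⟩).1, lt_of_lt_of_le (I.equivFin ⟨i, hi⟩).2 hI⟩ = i := by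
      simp only [hf]
      rw [dif_pos (I.equivFin ⟨i, hi⟩).2]
      simp
    rwa [h2] at h1
  -- truncation
  obtain ⟨n, hn⟩ : ∃ n : ℕ, ∀ I : Finset ι, I.card ≤ 2 * d →
      ENNReal.ofReal (1 / 2) ≤ volume (⋂ i ∈ I, (K i ∩ Q d n)) := by
    have hev : ∀ I : Finset ι, ∀ᶠ n : ℕ in Filter.atTop, I.card ≤ 2 * d →
        ENNReal.ofReal (1 / 2) ≤ volume (⋂ i ∈ I, (K i ∩ Q d n)) := by
      intro I
      by_cases hI : I.card ≤ 2 * d
      · have hmono : Monotone fun n : ℕ => (⋂ i ∈ I, K i) ∩ Q d (n : ℝ) := by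
          intro m n hmn x hx
          refine ⟨hx.1, fun k => (hx.2 k).trans ?_⟩
          exact_mod_cast hmn
        have hun : (⋃ n : ℕ, (⋂ i ∈ I, K i) ∩ Q d (n : ℝ)) = ⋂ i ∈ I, K i := by
          ext x
          rw [mem_iUnion]
          constructor
          · rintro ⟨n, h⟩; exact h.1
          · intro h
            obtain ⟨n, hn⟩ := exists_nat_ge ‖x‖
            exact ⟨n, h, fun k => (norm_le_pi_norm x k).trans hn⟩
        have ht := tendsto_measure_iUnion_atTop (μ := volume) hmono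
        rw [hun] at ht
        have hlt : ENNReal.ofReal (1 / 2) < volume (⋂ i ∈ I, K i) := by
          refine lt_of_lt_of_le ?_ (H1 I hI)
          rw [ENNReal.ofReal_lt_one]; norm_num
        filter_upwards [ht.eventually (lt_mem_nhds hlt)] with n hn _
        refine hn.le.trans (measure_mono ?_)
        intro x hx
        simp only [mem_iInter]
        intro i hi
        have h1 := hx.1
        simp only [mem_iInter] at h1
        exact ⟨h1 i hi, hx.2⟩
      · filter_upwards with n h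
        exact absurd h hI
    have := Fintype.ofFinite ι
    exact (Filter.eventually_all.2 hev).exists
  have hQc : Convex ℝ (Q d (n : ℝ)) := by
    rw [Q_eq]; exact convex_Icc _ _
  obtain ⟨p, b, hdet, hin, hvol⟩ := bkp hd (fun i => K i ∩ Q d n)
    (fun i => (hK i).inter hQc) n (fun i => inter_subset_right) hn
  set D : ℝ := |(Matrix.of b).det| with hD
  have hD0 : 0 < D := abs_pos.2 hdet
  have hDe : ENNReal.ofReal D ≠ 0 := by
    rw [Ne, ENNReal.ofReal_eq_zero]; linarith
  obtain ⟨P, hP⟩ := hr ι (fun i => {l | p + ∑ j, l j • b j ∈ K i})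
    (fun i => convex_coord p b (K i) (hK i)) (fun i l hl => (hin i l hl).1) (1 / D)
    (by positivity) (by
      rw [div_le_iff₀ hD0]
      linarith) (fun i => by
      have h1 := H1 {i} (by rw [Finset.card_singleton]; omega)
      have h2 : (⋂ i' ∈ ({i} : Finset ι), K i') = K i := by simp
      rw [h2, vol_coord p b hdet (K i), ← hD] at h1
      rw [one_div, ENNReal.ofReal_inv_of_pos hD0]
      calc (ENNReal.ofReal D)⁻¹ = (ENNReal.ofReal D)⁻¹ * 1 := (mul_one _).symm
        _ ≤ (ENNReal.ofReal D)⁻¹ * (ENNReal.ofReal D *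
            volume {l : Fin d → ℝ | p + ∑ j, l j • b j ∈ K i}) := mul_le_mul' le_rfl h1
        _ = volume {l : Fin d → ℝ | p + ∑ j, l j • b j ∈ K i} := by
          rw [← mul_assoc, ENNReal.inv_mul_cancel hDe ENNReal.ofReal_ne_top, one_mul])
  refine ⟨P, fun j => ?_⟩
  rw [vol_coord p b hdet, ← hD]
  have h1 : {l : Fin d → ℝ | p + ∑ j, l j • b j ∈ ⋂ i ∈ {i | P i = j}, K i} =
      ⋂ i ∈ {i | P i = j}, {l : Fin d → ℝ | p + ∑ j, l j • b j ∈ K i} := by
    ext l
    constructor
    · intro h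
      have h' : p + ∑ j, l j • b j ∈ ⋂ i ∈ {i | P i = j}, K i := h
      simp only [mem_iInter] at h' ⊢
      intro i hi
      exact h' i hi
    · intro h
      show p + ∑ j, l j • b j ∈ ⋂ i ∈ {i | P i = j}, K i
      simp only [mem_iInter] at h ⊢
      intro i hi
      exact h i hi
  rw [h1]
  refine le_trans (le_of_eq ?_) (mul_le_mul' le_rfl (hP j))
  rw [← ENNReal.ofReal_mul hD0.le]
  congr 1
  field_simp

end X73.VH
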